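import Mathlib

set_option autoImplicit false

namespace Pool.Agent.Results.MP_6bb66b_gt.Free

open Set Function Filter Topology

universe u

/-- A Suslin tree in which products of cones over finitely many pairwise incomparable
nodes have no uncountable family of pairwise incompatible points. -/
def FreeSuslin (T : Type u) [PartialOrder T] : Prop :=
  Uncountable T ∧ WellFoundedLT T ∧ (∀ t : T, IsChain (· ≤ ·) (Iic t)) ∧
    (∀ C : Set T, IsChain (· ≤ ·) C → C.Countable) ∧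
    (∀ A : Set T, IsAntichain (· ≤ ·) A → A.Countable) ∧
    ∀ F : Set T, F.Finite → IsAntichain (· ≤ ·) F → ∀ A : Set (F → T), (∀ a ∈ A, ∀ i : F, i.1 ≤ a i) →
      A.Pairwise (fun a b => ¬ ∃ c, a ≤ c ∧ b ≤ c) → A.Countable

def Quasi {X : Type u} [TopologicalSpace X] (f : X → ℝ) : Prop :=
  ∀ x U V, IsOpen U → x ∈ U → IsOpen V → f x ∈ V →
    ∃ W, IsOpen W ∧ W.Nonempty ∧ W ⊆ U ∧ f '' W ⊆ V

def SemiRegular (X : Type u) [TopologicalSpace X] : Prop :=
  TopologicalSpace.IsTopologicalBasis {U : Set X | U = interior (closure U)}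

def OpenWhyburn (X : Type u) [TopologicalSpace X] : Prop :=
  ∀ A : Set X, IsOpen A → ∀ x ∈ closure A \ A, ∃ B, IsOpen B ∧ B ⊆ A ∧ closure B \ A = {x}

theorem mac {P : Type*} (r : P → P → Prop) (s : ∀ a b, r a b → r b a) (e : ∀ a, r a a) (D : Set P) :
    ∃ A ⊆ D, (A.Pairwise fun a b => ¬ r a b) ∧ ∀ d ∈ D, ∃ a ∈ A, r d a := by
  obtain ⟨A, m⟩ := zorn_subset {A | A ⊆ D ∧ A.Pairwise fun a b => ¬ r a b} fun c k l =>
    ⟨⋃₀ c, ⟨sUnion_subset fun t h => (k h).1, (pairwise_sUnion l.directedOn).2 fun t h => (k h).2⟩,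
      fun _ => subset_sUnion_of_mem⟩
  refine ⟨A, m.prop.1, m.prop.2, fun d h => by_contra fun k => k ⟨d, m.le_of_ge (y := insert d A)
    ⟨insert_subset h m.prop.1, pairwise_insert.2 ⟨m.prop.2, fun a l _ =>
      ⟨fun o => k ⟨a, l, o⟩, fun o => k ⟨a, l, s _ _ o⟩⟩⟩⟩ (subset_insert _ _) (.inl rfl), e d⟩⟩

theorem clo {T : Type*} (t : T) (φ : Set T → Set T) (h : ∀ H, H.Finite → (φ H).Countable) :
    ∃ M : Set T, M.Countable ∧ t ∈ M ∧ ∀ H ⊆ M, H.Finite → φ H ⊆ M := by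
  let M : ℕ → Set T := Nat.rec {t} fun _ M => M ∪ ⋃ H ∈ {H | H.Finite ∧ H ⊆ M}, φ H
  refine ⟨⋃ n, M n, countable_iUnion fun n => n.rec (countable_singleton t) fun n k => k.union
    ((countable_setOf_finite_subset k).biUnion fun H l => h H l.1), mem_iUnion.2 ⟨0, rfl⟩,
    fun H k l => ?_⟩
  obtain ⟨n, o⟩ := ((eventually_all_finite l).2 fun x a => (mem_iUnion.1 (k a)).elim fun n b =>
    (eventually_ge_atTop n).mono fun m c =>
      monotone_nat_of_le_succ (f := M) (fun _ => subset_union_left) c b).exists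
  exact fun x a => mem_iUnion.2 ⟨n + 1, .inr (mem_biUnion ⟨l, o⟩ a)⟩

theorem result (T : Type u) [PartialOrder T] (h : FreeSuslin T) :
    ∃ (X : Type u) (_ : TopologicalSpace X), Uncountable X ∧ T2Space X ∧ SemiRegular X ∧
      OpenWhyburn X ∧ FrechetUrysohnSpace {f : X → ℝ // Quasi f} := by
  obtain ⟨h1, -, h2, h3, h4, h6⟩ := h
  have tr : ∀ {a b c : T}, a ≤ c → b ≤ c → a ≤ b ∨ b ≤ a := fun k l => (h2 _).total k l
  choose b hb using fun t : T => Flag.exists_mem t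
  have dn : ∀ {x : Flag T} {s t}, s ≤ t → t ∈ x → s ∈ x := fun k l =>
    Flag.mem_iff_forall_le_or_ge.2 fun u m => (Flag.le_or_le _ m l).elim (tr k) fun o =>
      .inl (k.trans o)
  let B : T → Set (range b) := fun s => {x | s ∈ x.1}
  let β : T → range b := fun t => ⟨b t, t, rfl⟩
  have up : ∀ (x : range b) (U : Set (range b)) s, s ∈ x.1 → (∃ t ∈ x.1, B t ⊆ U) →
      ∃ t ∈ x.1, s ≤ t ∧ B t ⊆ U := fun x U s k ⟨t, l, m⟩ => (Flag.le_or_le _ k l).elim
    (fun o => ⟨t, l, o, m⟩) fun o => ⟨s, k, le_rfl, fun y p => m (dn o p)⟩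
  letI : TopologicalSpace (range b) :=
    { IsOpen U := ∀ x ∈ U, ∃ s ∈ x.1, B s ⊆ U
      isOpen_univ := fun ⟨_, t, rfl⟩ _ => ⟨t, hb t, subset_univ _⟩
      isOpen_inter := fun U V k l x m => by
        obtain ⟨s, o, p⟩ := k x m.1
        obtain ⟨t, q, r, w⟩ := up x V s o (l x m.2)
        exact ⟨t, q, fun y z => ⟨p (dn r z), w z⟩⟩
      isOpen_sUnion := fun c k x ⟨U, l, m⟩ => (k U l x m).imp fun s o =>
        ⟨o.1, o.2.trans (subset_sUnion_of_mem l)⟩ }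
  have op : ∀ s, IsOpen (B s) := fun s x k => ⟨s, k, subset_rfl⟩
  have gen : ∀ D : Set T, (∀ s, ∃ u ∈ D, s ≤ u) →
      ∃ A ⊆ D, A.Countable ∧ ∀ t, ∃ a ∈ A, a ≤ t ∨ t ≤ a := fun D k => by
    obtain ⟨A, a1, a2, a3⟩ := mac (fun a b : T => a ≤ b ∨ b ≤ a) (fun _ _ => Or.symm)
      (fun _ => .inl le_rfl) D
    refine ⟨A, a1, h4 A (a2.imp fun _ _ l m => l (.inl m)), fun t => ?_⟩
    obtain ⟨u, l, m⟩ := k t
    exact (a3 u l).imp fun a o => ⟨o.1, o.2.elim (fun p => .inr (m.trans p)) (tr · m)⟩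
  have cp : ∀ s, IsClosed (B s) := fun s => ⟨fun y l => by
    obtain ⟨t, m, p⟩ := by simpa only [not_forall] using mt Flag.mem_iff_forall_le_or_ge.2 l
    exact ⟨t, m, fun z q r => p (Flag.le_or_le _ r q)⟩⟩
  have ne : ∀ x y : range b, x ≠ y → ∃ s ∈ x.1, s ∉ y.1 := fun x y n =>
    not_subset.1 fun k => n (Subtype.ext (Flag.ext (x.1.maxChain.2 y.1.chain_le k)))
  refine ⟨range b, inferInstance, ⟨fun k => not_countable_univ
      ((countable_iUnion fun x : range b => h3 _ x.1.chain_le).mono fun t _ =>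
        mem_iUnion.2 ⟨β t, hb t⟩)⟩, ⟨fun x y n => (ne x y n).elim fun s k =>
    ⟨_, _, op s, (cp s).isOpen_compl, k.1, k.2, disjoint_compl_right⟩⟩,
    TopologicalSpace.isTopologicalBasis_of_isOpen_of_nhds (fun U k => k.symm ▸ isOpen_interior)
      fun x U k l => (l x k).elim fun s m => ⟨B s, by
        rw [mem_setOf, (cp s).closure_eq, (op s).interior_eq], m⟩,
    fun A k x l => ?_, ⟨fun 𝒜 g c => ?_⟩⟩
  · obtain ⟨e, he⟩ := (h3 _ x.1.chain_le).exists_eq_range (x.2.elim fun t m => ⟨t, m ▸ hb t⟩)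
    have : ∀ n, ∃ t, B t ⊆ (⋂ m ∈ Iic n, B (e m)) ∩ A := fun n => by
      have o := (finite_Iic n).isOpen_biInter fun m _ => op (e m)
      obtain ⟨y, p⟩ := mem_closure_iff.1 l.1 _ o (mem_iInter₂.2 fun m _ => he.ge ⟨m, rfl⟩)
      exact ((o.inter k) y p).imp fun _ => And.right
    choose t ht using this
    refine ⟨⋃ n, B (t n), isOpen_iUnion fun n => op _, iUnion_subset fun n y p => (ht n p).2,
      subset_antisymm (fun y p => by_contra fun q => ?_) (singleton_subset_iff.2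
        ⟨mem_closure_iff.2 fun O p q => ?_, l.2⟩)⟩
    · obtain ⟨s, r, v⟩ := ne x y (Ne.symm q)
      obtain ⟨m, rfl⟩ := he.le r
      rcases closure_minimal (iUnion_subset fun n => (lt_or_ge n m).elim
        (fun w z a => .inl (mem_biUnion (mem_Iio.2 w) a))
        fun w z a => .inr (mem_iInter₂.1 (ht n a).1 m w))
        (((finite_Iio m).isClosed_biUnion fun n _ => cp (t n)).union (cp (e m))) p.1 with w | w
      exacts [(mem_iUnion₂.1 w).elim fun n z => p.2 (ht n z.2).2, v w]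
    · obtain ⟨s, r, v⟩ := p x q
      obtain ⟨m, rfl⟩ := he.le r
      exact ⟨β (t m), v (mem_iInter₂.1 (ht m (hb _)).1 m (le_refl m)), mem_iUnion.2 ⟨m, hb _⟩⟩
  let U : ℕ → {f : range b → ℝ // Quasi f} → Set (range b) := fun n f =>
    {x | dist (f.1 x) (g.1 x) < 1 / (n + 1)}
  have qu : ∀ (f : {f : range b → ℝ // Quasi f}) (ε : ℝ), 0 < ε → ∀ s, ∃ t, s ≤ t ∧
      ∀ x ∈ B t, dist (f.1 x) (f.1 (β s)) < ε := fun f ε k s => by
    obtain ⟨W, l, ⟨x, m⟩, p, q⟩ := f.2 (β s) _ _ (op s) (hb s) Metric.isOpen_ball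
      (Metric.mem_ball_self k)
    obtain ⟨t, -, r, v⟩ := up x W s (p m) (l x m)
    exact ⟨t, r, fun y w => q ⟨y, v w, rfl⟩⟩
  choose A' a1 a2 a3 using fun m : T => gen {u | u ≤ m → m ≤ u} fun s => by
    by_cases k : s ≤ m
    exacts [⟨m, id, k⟩, ⟨s, fun l => (k l).elim, le_rfl⟩]
  have : ∀ (n : ℕ) (G F : Set T), ∃ A : Set (F → T),
      (F.Finite → IsAntichain (· ≤ ·) F → A.Countable) ∧
      (G.Finite → F.Finite → ∀ s : F → T, (∀ i : F, i.1 ≤ s i) → ∃ a ∈ A, (∃ c, s ≤ c ∧ a ≤ c) ∧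
        ∃ f ∈ 𝒜, β '' G ⊆ U n f ∧ ∀ i, B (a i) ⊆ U n f) := fun n G F => by
    obtain ⟨A, k, l, m⟩ := mac (fun a b : F → T => ∃ c, a ≤ c ∧ b ≤ c)
      (fun _ _ => Exists.imp fun _ => And.symm) (fun a => ⟨a, le_rfl, le_rfl⟩)
      {a | (∀ i : F, i.1 ≤ a i) ∧ ∃ f ∈ 𝒜, β '' G ⊆ U n f ∧ ∀ i, B (a i) ⊆ U n f}
    refine ⟨A, fun p q => h6 F p q A (fun a r => (k r).1) l, fun p q s r => ?_⟩
    have := q.to_subtype
    have d : (0 : ℝ) < 1 / (n + 1) / 4 := by positivity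
    choose s' s1 s2 using fun i => qu g _ d (s i)
    obtain ⟨f, w, v⟩ := mem_closure_iff_nhds.1 c _ ((eventually_all_finite
      ((p.image β).union (finite_range fun i => β (s' i)))).2 fun x _ =>
        ((continuous_apply x).comp continuous_subtype_val).continuousAt (Metric.ball_mem_nhds _ d))
    choose t t1 t2 using fun i => qu f _ d (s' i)
    obtain ⟨a, y, z, z1, z2⟩ := m t ⟨fun i => ((r i).trans (s1 i)).trans (t1 i), f, v,
      fun x j => lt_trans (Metric.mem_ball.1 (w x (.inl j))) (by linarith), fun i x j => by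
        have := dist_triangle4 (f.1 x) (f.1 (β (s' i))) (g.1 (β (s' i))) (g.1 x)
        have := dist_triangle_right (g.1 (β (s' i))) (g.1 x) (g.1 (β (s i)))
        have : dist (f.1 _) (g.1 _) < _ := w _ (.inr ⟨i, rfl⟩)
        show dist _ _ < _
        linarith [t2 i x j, s2 i x (dn (t1 i) j), s2 i (β _) (hb (s' i))]⟩
    exact ⟨a, y, ⟨z, le_trans (le_trans s1 t1) z1, z2⟩, (k y).2⟩
  choose A b1 b2 using this
  obtain ⟨t₀⟩ : Nonempty T := inferInstance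
  obtain ⟨M, m1, m2, m3⟩ := clo t₀ (fun H => (⋃ m ∈ H, Iic m ∪ A' m) ∪ ⋃ n, ⋃ G ∈ 𝒫 H,
    ⋃ F ∈ {F ⊆ H | IsAntichain (· ≤ ·) F}, ⋃ a ∈ A n G F, range a) fun H k =>
    (k.countable.biUnion fun m _ => (h3 _ (h2 m)).union (a2 m)).union
      (countable_iUnion fun n => k.finite_subsets.countable.biUnion fun G _ => (k.finite_subsets.subset
        fun _ => And.left).countable.biUnion fun F l => (b1 n G F (k.subset l.1) l.2).biUnion
          fun a _ => have := (k.subset l.1).to_subtype; countable_range a)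
  have m4 : ∀ m ∈ M, Iic m ∪ A' m ⊆ M := fun m k x l =>
    m3 {m} (singleton_subset_iff.2 k) (finite_singleton m) (.inl (mem_biUnion rfl l))
  have m5 : ∀ m ∈ M, ∀ r ∉ M, m ≤ r ∨ r ≤ m → m ≤ r := fun m k r l p =>
    p.resolve_right fun q => l (m4 m k (.inl q))
  obtain ⟨R, r1, r2, r3⟩ := mac (fun a b : T => M ∩ Iic a = M ∩ Iic b) (fun _ _ => Eq.symm)
    (fun _ => rfl) Mᶜ
  have K : ∀ n, ∀ G ⊆ M, G.Finite → ∀ S ⊆ R, S.Finite → ∃ f ∈ 𝒜, β '' G ⊆ U n f ∧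
      ∀ r ∈ S, ∀ s, M ∩ Iic s = M ∩ Iic r → β s ∈ U n f := fun n G g1 g2 S s1 s2 => by
    have : ∀ r ∈ R, ∀ S : Set T, S.Finite → S ⊆ R → ∃ t ∈ M ∩ Iic r, ∀ z ∈ S, r ≠ z → ¬ t ≤ z :=
      fun r k S s2 s1 => by
      have e : ∀ m ∈ M, ∃ a ∈ M ∩ Iic r, a ≤ m → m ≤ a := fun m l =>
        (a3 m r).imp fun a p => ⟨⟨m4 m l (.inr p.1), m5 _ (m4 m l (.inr p.1)) _ (r1 k) p.2⟩, a1 m p.1⟩
      induction S, s2 using Set.Finite.induction_on with
      | empty => exact (e _ m2).imp fun t l => ⟨l.1, nofun⟩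
      | @insert z S _ _ l =>
        obtain ⟨t, l, p⟩ := l ((subset_insert _ _).trans s1)
        rcases eq_or_ne r z with rfl | q
        · exact ⟨t, l, forall_mem_insert.2 ⟨(· rfl |>.elim), p⟩⟩
        obtain ⟨w, v, y⟩ := not_subset.1 fun v : M ∩ Iic r ⊆ Iic z => r2 k (s1 (.inl rfl)) q
          (subset_antisymm (subset_inter inter_subset_left v) fun m y => by
            obtain ⟨a, i, j⟩ := e m y.1
            exact ⟨y.1, ((tr (v i) y.2).elim j id).trans i.2⟩)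
        rcases tr l.2 v.2 with i | i
        · exact ⟨w, v, forall_mem_insert.2 ⟨fun _ => y, fun z j q f => p z j q (i.trans f)⟩⟩
        · exact ⟨t, l, forall_mem_insert.2 ⟨fun _ f => y (i.trans f), p⟩⟩
    replace this := fun r : S => this r (s1 r.2) S s2 s1
    choose t t1 t2 using this
    have := s2.to_subtype
    have t3 : ∀ r z, t r ≤ t z → r = z := fun r z k => by_contra fun l =>
      t2 r z z.2 (Subtype.coe_ne_coe.2 l) (k.trans (t1 z).2)
    choose s e using fun i : range t => i.2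
    obtain ⟨a, i, ⟨z, j, k⟩, U, l, p, q⟩ := b2 n G _ g2 (finite_range t) (fun i => s i)
      fun i => e i ▸ (t1 _).2
    refine ⟨U, l, p, fun r v y w => q ⟨_, ⟨r, v⟩, rfl⟩ (dn (w.ge ?_).2 (hb y))⟩
    have f := m3 (G ∪ range t) (union_subset g1 (range_subset_iff.2 fun r => (t1 r).1))
      (g2.union (finite_range t)) (.inr (mem_iUnion.2 ⟨n, mem_biUnion subset_union_left (mem_biUnion
        ⟨subset_union_right, by
          rintro _ ⟨r, rfl⟩ _ ⟨z, rfl⟩ x y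
          exact x (t3 r z y ▸ rfl)⟩ (mem_biUnion i ⟨⟨_, ⟨r, v⟩, rfl⟩, rfl⟩))⟩))
    have g : (s ⟨_, ⟨r, v⟩, rfl⟩ : T) ≤ z _ := j ⟨_, ⟨r, v⟩, rfl⟩
    rw [t3 _ _ (e ⟨_, ⟨r, v⟩, rfl⟩).le] at g
    exact ⟨f, m5 _ f _ (r1 (s1 v)) (tr (k _) g)⟩
  obtain ⟨e, he⟩ := (m1.union (h4 R fun x k y l p q => r2 k l p (subset_antisymm
    (inter_subset_inter_right _ (Iic_subset_Iic.2 q)) fun m v =>
      ⟨v.1, m5 _ v.1 _ (r1 k) (tr v.2 q)⟩))).exists_eq_range ⟨_, .inl m2⟩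
  choose f u1 u2 u3 using fun k => K k (M ∩ e '' Iic k) inter_subset_left
    (((finite_Iic k).image e).inter_of_right _) (R ∩ e '' Iic k) inter_subset_left
    (((finite_Iic k).image e).inter_of_right _)
  have ev : ∀ x, ∀ᶠ k in atTop, x ∈ U k (f k) := by
    rintro ⟨_, s, rfl⟩
    by_cases k : s ∈ M
    · obtain ⟨j, l⟩ := he.le (.inl k)
      exact (eventually_ge_atTop j).mono fun i p => u2 i ⟨s, ⟨k, j, p, l⟩, rfl⟩
    obtain ⟨r, p, q⟩ := r3 s k
    obtain ⟨j, l⟩ := he.le (.inr p)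
    exact (eventually_ge_atTop j).mono fun i v => u3 i r ⟨p, j, v, l⟩ s q
  exact ⟨f, u1, tendsto_subtype_rng.2 (tendsto_pi_nhds.2 fun x => tendsto_iff_dist_tendsto_zero.2
    (squeeze_zero' (.of_forall fun _ => dist_nonneg) ((ev x).mono fun _ k => le_of_lt k)
      tendsto_one_div_add_atTop_nhds_zero_nat))⟩

end Pool.Agent.Results.MP_6bb66b_gt.Free
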